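import Pool.Agent.R851.RR.Energy

set_option autoImplicit false

namespace R851RR

open Finset

section Greedy

variable {V : Type*} [AddCommGroup V] [Module ℚ V] {ι : Type*}

lemma finrank_span_base (v : ι → V) (B : Finset ι) (hB : LinearIndepOn ℚ v (B : Set ι)) :
    Module.finrank ℚ (Submodule.span ℚ (v '' (B : Set ι))) = B.card := by
  have h : LinearIndependent ℚ (fun i : (B : Set ι) => v i) := hB
  have h2 := finrank_span_eq_card h
  rw [← Set.image_eq_range] at h2
  rw [h2]
  simp

lemma exists_base (v : ι → V) (I : Finset ι) : ∃ B ⊆ I, LinearIndepOn ℚ v (B : Set ι) ∧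
    B.card = Module.finrank ℚ (Submodule.span ℚ (v '' (I : Set ι))) := by
  classical
  obtain ⟨b, hb, -, hs, hli⟩ := exists_linearIndepOn_extension (linearIndepOn_empty ℚ v)
    (Set.empty_subset (I : Set ι))
  have hfin : b.Finite := I.finite_toSet.subset hb
  have hli' : LinearIndepOn ℚ v (hfin.toFinset : Set ι) := by simpa using hli
  refine ⟨hfin.toFinset, ?_, hli', ?_⟩
  · intro i hi
    exact hb (by simpa using hi)
  · have heq : Submodule.span ℚ (v '' (I : Set ι)) = Submodule.span ℚ (v '' b) :=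
      le_antisymm (Submodule.span_le.2 hs) (Submodule.span_mono (Set.image_mono hb))
    rw [heq, ← finrank_span_base v hfin.toFinset hli', Set.Finite.coe_toFinset]

lemma indep_int (v : ι → V) (B : Finset ι) (hB : LinearIndepOn ℚ v (B : Set ι))
    (c : B → ℤ) (hc : ∑ i, c i • v i = 0) (i : B) : c i = 0 := by
  have h : LinearIndependent ℚ (fun i : B => v i) := hB
  rw [Fintype.linearIndependent_iff] at h
  have h2 := h (fun i => ((c i : ℤ) : ℚ)) (by
    rw [← hc]
    refine Finset.sum_congr rfl fun i _ => ?_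
    rw [Int.cast_smul_eq_zsmul]) i
  exact_mod_cast h2

lemma greedy (v : ι → V) [DecidableEq ι] (J : Finset ι) (m : ℕ) :
    ∃ S ⊆ J, S.card ≤ m * Module.finrank ℚ (Submodule.span ℚ (v '' (J : Set ι))) ∧
      ∃ B : ℕ → Finset ι, (∀ t < m, B t ⊆ S) ∧
        (∀ t < m, ∀ t' < m, t ≠ t' → Disjoint (B t) (B t')) ∧
        ∀ t < m, LinearIndepOn ℚ v (B t : Set ι) ∧
          (B t).card = Module.finrank ℚ (Submodule.span ℚ (v '' (↑(J \ S) : Set ι))) := by
  classical
  induction m with
  | zero => exact ⟨∅, by simp, by simp, fun _ => ∅, by simp, by simp, by simp⟩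
  | succ m ih =>
    obtain ⟨S, hSJ, hScard, B, hBS, hdis, hB⟩ := ih
    obtain ⟨B', hB'J, hB'li, hB'card⟩ := exists_base v (J \ S)
    have hmono : ∀ I I' : Finset ι, I ⊆ I' →
        Module.finrank ℚ (Submodule.span ℚ (v '' (I : Set ι))) ≤
        Module.finrank ℚ (Submodule.span ℚ (v '' (I' : Set ι))) := by
      intro I I' hI
      have : FiniteDimensional ℚ (Submodule.span ℚ (v '' (I' : Set ι))) :=
        FiniteDimensional.span_of_finite ℚ ((I'.finite_toSet).image v)
      exact Submodule.finrank_mono (Submodule.span_mono (Set.image_mono (by exact_mod_cast hI)))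
    set w := Module.finrank ℚ (Submodule.span ℚ (v '' (↑(J \ (S ∪ B')) : Set ι))) with hw
    have hww : w ≤ Module.finrank ℚ (Submodule.span ℚ (v '' (↑(J \ S) : Set ι))) :=
      hmono _ _ (Finset.sdiff_subset_sdiff (le_refl _) Finset.subset_union_left)
    have hex : ∀ t < m + 1, ∃ D : Finset ι, D ⊆ (if t = m then B' else B t) ∧ D.card = w := by
      intro t ht
      refine Finset.exists_subset_card_eq ?_
      split_ifs with h
      · rw [hB'card]; exact hww
      · rw [(hB t (by omega)).2]; exact hww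
    choose! D hDsub hDcard using hex
    have hBB' : ∀ t < m, Disjoint (B t) B' := by
      intro t ht
      refine Finset.disjoint_left.2 fun i hi hi' => ?_
      have h1 := hBS t ht hi
      have h2 := hB'J hi'
      rw [Finset.mem_sdiff] at h2
      exact h2.2 h1
    refine ⟨S ∪ B', ?_, ?_, D, ?_, ?_, ?_⟩
    · refine Finset.union_subset hSJ (hB'J.trans Finset.sdiff_subset)
    · refine (Finset.card_union_le _ _).trans ?_
      rw [hB'card]
      have := hmono (J \ S) J Finset.sdiff_subset
      nlinarith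
    · intro t ht
      refine (hDsub t ht).trans ?_
      split_ifs with h
      · exact Finset.subset_union_right
      · exact (hBS t (by omega)).trans Finset.subset_union_left
    · intro t ht t' ht' hne
      refine Disjoint.mono (hDsub t ht) (hDsub t' ht') ?_
      split_ifs with h h'
      · omega
      · exact (hBB' t' (by omega)).symm
      · exact hBB' t (by omega)
      · exact hdis t (by omega) t' (by omega) hne
    · intro t ht
      refine ⟨?_, hDcard t ht⟩
      have h1 := hDsub t ht
      split_ifs at h1 with h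
      · exact hB'li.mono (by exact_mod_cast h1)
      · exact (hB t (by omega)).1.mono (by exact_mod_cast h1)

end Greedy

section Prog

variable {V : Type*} [AddCommGroup V] {d : ℕ}

/-- progression with the generators in `S` only -/
noncomputable def progF (a : V) (v : Fin d → V) (N : Fin d → ℕ) (S : Finset (Fin d)) :
    Finset V :=
  haveI := Classical.decEq V
  (Fintype.piFinset fun i => range (N i)).image fun k => a + ∑ i ∈ S, k i • v i

lemma mem_progF (a : V) (v : Fin d → V) (N : Fin d → ℕ) (S : Finset (Fin d)) (x : V) :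
    x ∈ progF a v N S ↔ ∃ k : Fin d → ℕ, (∀ i, k i < N i) ∧ x = a + ∑ i ∈ S, k i • v i := by
  classical
  unfold progF
  rw [Finset.mem_image]
  constructor
  · rintro ⟨k, hk, rfl⟩
    refine ⟨k, fun i => ?_, rfl⟩
    rw [Fintype.mem_piFinset] at hk
    exact Finset.mem_range.1 (hk i)
  · rintro ⟨k, hk, rfl⟩
    refine ⟨k, ?_, rfl⟩
    rw [Fintype.mem_piFinset]
    intro i
    exact Finset.mem_range.2 (hk i)

lemma card_cube_le (a : V) (v : Fin d → V) (N : Fin d → ℕ) (hN : ∀ i, 0 < N i)
    (S : Finset (Fin d)) (hS : ∀ i ∈ S, 2 ≤ N i) :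
    (cube v S).card ≤ (progF a v N univ).card := by
  classical
  refine Finset.card_le_card_of_injOn (fun x => a + x) ?_ ?_
  · intro x hx
    unfold cube at hx
    rw [Finset.mem_coe, Finset.mem_image] at hx
    obtain ⟨T, hT, rfl⟩ := hx
    rw [Finset.mem_powerset] at hT
    rw [Finset.mem_coe, mem_progF]
    refine ⟨fun i => if i ∈ T then 1 else 0, fun i => ?_, ?_⟩
    · show (if i ∈ T then 1 else 0) < N i
      split_ifs with h
      · exact hS i (hT h)
      · exact hN i
    · congr 1
      simp only [ite_smul, one_smul, zero_smul]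
      rw [Finset.sum_ite_mem]
      simp
  · intro x _ y _ hxy
    exact add_left_cancel hxy

lemma card_box_le [Module ℚ V] (a : V) (v : Fin d → V) (N : Fin d → ℕ) (hN : ∀ i, 0 < N i)
    (B : Finset (Fin d)) (hB : LinearIndepOn ℚ v (B : Set (Fin d))) (M : ℕ)
    (hM : ∀ i ∈ B, M ≤ N i) :
    M ^ B.card ≤ (progF a v N univ).card := by
  classical
  have hcard : (Fintype.piFinset fun _ : B => range M).card = M ^ B.card := by
    rw [Fintype.card_piFinset]
    simp
  rw [← hcard]
  refine Finset.card_le_card_of_injOn (fun k : B → ℕ => a + ∑ i : B, k i • v i) ?_ ?_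
  · intro k hk
    rw [Finset.mem_coe, Fintype.mem_piFinset] at hk
    rw [Finset.mem_coe, mem_progF]
    refine ⟨fun i => if h : i ∈ B then k ⟨i, h⟩ else 0, fun i => ?_, ?_⟩
    · show (if h : i ∈ B then k ⟨i, h⟩ else 0) < N i
      split_ifs with h
      · exact lt_of_lt_of_le (Finset.mem_range.1 (hk ⟨i, h⟩)) (hM i h)
      · exact hN i
    · show a + ∑ i : B, k i • v i = a + ∑ i, (if h : i ∈ B then k ⟨i, h⟩ else 0) • v i
      congr 1
      have h1 : ∀ i ∈ (univ : Finset (Fin d)), i ∉ B →
          (if h : i ∈ B then k ⟨i, h⟩ else 0) • v i = 0 := by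
        intro i _ hi
        rw [dif_neg hi, zero_smul]
      have h2 := Finset.sum_subset (Finset.subset_univ B) h1
      have h3 := Finset.sum_coe_sort B (fun i => (if h : i ∈ B then k ⟨i, h⟩ else 0) • v i)
      rw [← h2, ← h3]
      have h4 : ∀ i : B, k i • v i = (if h : (i : Fin d) ∈ B then k ⟨i, h⟩ else 0) • v i := by
        intro i
        rw [dif_pos i.2]
      exact Finset.sum_congr rfl fun i _ => h4 i
  · intro k _ k' _ heq
    have h1 : ∑ i : B, k i • v i = ∑ i : B, k' i • v i := add_left_cancel (a := a) heq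
    have h2 : ∑ i : B, ((k i : ℤ) - (k' i : ℤ)) • v i = 0 := by
      simp_rw [sub_smul, natCast_zsmul]
      rw [Finset.sum_sub_distrib, h1, sub_self]
    funext i
    have := indep_int v B hB (fun i => (k i : ℤ) - (k' i : ℤ)) h2 i
    omega

variable [Module ℚ V]

lemma core (a : V) (v : Fin d → V) (N : Fin d → ℕ) (A : Finset V) [DecidableEq V]
    (hQ : (A ∩ progF a v N univ).Nonempty) (s M : ℕ) :
    ∃ (S : Finset (Fin d)) (L w₁ w₂ : ℕ) (W : Submodule ℚ V), Module.Finite ℚ W ∧
      S.card ≤ 2 ^ s * L ∧ (∀ i ∈ S, N i < M) ∧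
      (3 : ℝ) ^ L ≤ ((progF a v N univ).card : ℝ) ^ 2 ∧
      (M : ℝ) ^ w₁ ≤ ((progF a v N univ).card : ℝ) ∧
      (2 * 2 ^ s + 1 : ℝ) ^ w₂ ≤ ((progF a v N univ).card : ℝ) ^ 2 ∧
      Module.finrank ℚ W ≤ w₁ + w₂ ∧
      ∀ κ : ℕ, (∀ (x : V) (D : Finset V), D ⊆ A → (∀ y ∈ D, y - x ∈ W) → D.card ≤ κ) →
        ∃ a' : V, progF a' v N S ⊆ progF a v N univ ∧
          (((A ∩ progF a v N univ).card : ℕ) : ℝ) ^ 2 ≤
            (κ : ℝ) * ((progF a v N univ).card : ℝ) * ((A ∩ progF a' v N S).card : ℝ) := by
  classical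
  set P := progF a v N univ with hP
  set Q := A ∩ P with hQdef
  obtain ⟨q₀, hq₀⟩ := hQ
  have hq₀P : q₀ ∈ P := (Finset.mem_inter.1 hq₀).2
  have hNpos : ∀ i, 0 < N i := by
    rw [hP, mem_progF] at hq₀P
    obtain ⟨k, hk, -⟩ := hq₀P
    intro i
    exact lt_of_le_of_lt (Nat.zero_le _) (hk i)
  set J : Finset (Fin d) := univ.filter fun i => 2 ≤ N i ∧ N i < M with hJ
  set J₁ : Finset (Fin d) := univ.filter fun i => 2 ≤ N i ∧ M ≤ N i with hJ₁
  obtain ⟨S, hSJ, hScard, B, hBS, hdis, hB⟩ := greedy v J (2 ^ s)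
  set W₁ := Submodule.span ℚ (v '' (J₁ : Set (Fin d))) with hW₁
  set W₂ := Submodule.span ℚ (v '' (↑(J \ S) : Set (Fin d))) with hW₂
  set W := W₁ ⊔ W₂ with hW
  have hW₁fin : Module.Finite ℚ W₁ :=
    FiniteDimensional.span_of_finite ℚ ((J₁.finite_toSet).image v)
  have hW₂fin : Module.Finite ℚ W₂ :=
    FiniteDimensional.span_of_finite ℚ (((J \ S).finite_toSet).image v)
  have hWfin : Module.Finite ℚ W := Submodule.finiteDimensional_sup W₁ W₂
  refine ⟨S, Module.finrank ℚ (Submodule.span ℚ (v '' (J : Set (Fin d)))),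
    Module.finrank ℚ W₁, Module.finrank ℚ W₂, W, hWfin, hScard,
    fun i hi => (Finset.mem_filter.1 (hSJ hi)).2.2, ?_, ?_, ?_,
    Submodule.finrank_add_le_finrank_add_finrank W₁ W₂, ?_⟩
  · obtain ⟨B₀, hB₀J, hB₀li, hB₀card⟩ := exists_base v J
    have h := card_cube_ge v 0 B₀.card (fun _ => B₀) B₀ (fun _ _ => le_refl _)
      (by intro t ht t' ht' hne; simp at ht ht'; omega) (fun _ _ => rfl)
      (fun _ _ c hc i => indep_int v B₀ hB₀li c hc i)
    rw [← hB₀card]
    have h2 := card_cube_le a v N hNpos B₀ (fun i hi => (Finset.mem_filter.1 (hB₀J hi)).2.1)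
    have h3 : ((cube v B₀).card : ℝ) ^ 2 ≤ ((P.card : ℕ) : ℝ) ^ 2 :=
      pow_le_pow_left₀ (by positivity) (by exact_mod_cast h2) 2
    have h4 : (2 * 2 ^ 0 + 1 : ℝ) = 3 := by norm_num
    rw [h4] at h
    exact h.trans h3
  · obtain ⟨B₁, hB₁J, hB₁li, hB₁card⟩ := exists_base v J₁
    have h := card_box_le a v N hNpos B₁ hB₁li M
      (fun i hi => (Finset.mem_filter.1 (hB₁J hi)).2.2)
    rw [hB₁card] at h
    exact_mod_cast h
  · have h := card_cube_ge v s (Module.finrank ℚ W₂) B S hBS hdis (fun t ht => (hB t ht).2)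
      (fun t ht c hc i => indep_int v (B t) (hB t ht).1 c hc i)
    have h2 := card_cube_le a v N hNpos S (fun i hi => (Finset.mem_filter.1 (hSJ hi)).2.1)
    have h3 : ((cube v S).card : ℝ) ^ 2 ≤ ((P.card : ℕ) : ℝ) ^ 2 :=
      pow_le_pow_left₀ (by positivity) (by exact_mod_cast h2) 2
    exact h.trans h3
  · intro κ hκ
    -- coefficients
    have hex : ∀ q ∈ P, ∃ k : Fin d → ℕ, (∀ i, k i < N i) ∧ q = a + ∑ i, k i • v i := by
      intro q hq
      rw [hP, mem_progF] at hq
      exact hq
    choose! kf hkf using hex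
    set Y := progF (0 : V) v N Sᶜ with hY
    have hYW : ∀ y ∈ Y, y ∈ W := by
      intro y hy
      rw [hY, mem_progF] at hy
      obtain ⟨k, hk, rfl⟩ := hy
      rw [zero_add]
      refine Submodule.sum_mem _ fun i hi => ?_
      rw [Finset.mem_compl] at hi
      by_cases hiJ : 2 ≤ N i
      · have : v i ∈ W := by
          by_cases hiM : M ≤ N i
          · exact (le_sup_left : W₁ ≤ W) (Submodule.subset_span
              ⟨i, by simp [hJ₁, hiJ, hiM], rfl⟩)
          · exact (le_sup_right : W₂ ≤ W) (Submodule.subset_span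
              ⟨i, by simp [hJ, hiJ, not_le.1 hiM, hi], rfl⟩)
        exact Submodule.smul_of_tower_mem W (k i) this
      · have h1 : N i < 2 := not_le.1 hiJ
        have h2 : k i = 0 := by have := hk i; omega
        rw [h2, zero_smul]
        exact W.zero_mem
    set yf : V → V := fun q => ∑ i ∈ Sᶜ, kf q i • v i with hyf
    set xf : V → V := fun q => ∑ i ∈ S, kf q i • v i with hxf
    have hdec : ∀ q ∈ P, q = a + xf q + yf q := by
      intro q hq
      conv_lhs => rw [(hkf q hq).2]
      rw [add_assoc]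
      congr 1
      rw [hxf, hyf]
      exact (Finset.sum_add_sum_compl S _).symm
    have hyY : ∀ q ∈ P, yf q ∈ Y := by
      intro q hq
      rw [hY, mem_progF]
      exact ⟨kf q, (hkf q hq).1, by rw [zero_add]⟩
    set C := Q.image W.mkQ with hC
    have h1 : Q.card ≤ κ * C.card := by
      refine Finset.card_le_mul_card_image Q κ ?_
      intro c hc
      rw [Finset.mem_image] at hc
      obtain ⟨q₁, hq₁, rfl⟩ := hc
      refine hκ q₁ _ ?_ ?_
      · intro y hy
        rw [Finset.mem_filter] at hy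
        exact (Finset.mem_inter.1 hy.1).1
      · intro y hy
        rw [Finset.mem_filter] at hy
        have := hy.2
        rw [Submodule.mkQ_apply, Submodule.mkQ_apply, Submodule.Quotient.eq] at this
        exact this
    have hrep : ∀ c ∈ C, ∃ q ∈ Q, W.mkQ q = c := by
      intro c hc
      rw [hC, Finset.mem_image] at hc
      exact hc
    choose! rep hrepQ hrepc using hrep
    have hmem : ∀ q ∈ P, ∀ y ∈ Y, a + xf q + y ∈ P := by
      intro q hq y hy
      rw [hY, mem_progF] at hy
      obtain ⟨k, hk, rfl⟩ := hy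
      rw [hP, mem_progF]
      refine ⟨fun i => if i ∈ S then kf q i else k i, fun i => ?_, ?_⟩
      · show (if i ∈ S then kf q i else k i) < N i
        split_ifs
        · exact (hkf q hq).1 i
        · exact hk i
      · rw [zero_add, add_assoc]
        congr 1
        rw [← Finset.sum_add_sum_compl S]
        congr 1
        · rw [hxf]
          refine Finset.sum_congr rfl fun i hi => ?_
          show kf q i • v i = (if i ∈ S then kf q i else k i) • v i
          rw [if_pos hi]
        · refine Finset.sum_congr rfl fun i hi => ?_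
          rw [Finset.mem_compl] at hi
          show k i • v i = (if i ∈ S then kf q i else k i) • v i
          rw [if_neg hi]
    have hQP : ∀ q ∈ Q, q ∈ P := fun q hq => (Finset.mem_inter.1 hq).2
    have hmk : ∀ q ∈ P, ∀ y ∈ Y, W.mkQ (a + xf q + y) = W.mkQ q := by
      intro q hq y hy
      rw [Submodule.mkQ_apply, Submodule.mkQ_apply, Submodule.Quotient.eq]
      have : a + xf q + y - q = y - yf q := by
        conv_lhs => rw [sub_eq_add_neg]; arg 2; rw [hdec q hq]
        abel
      rw [this]
      exact W.sub_mem (hYW y hy) (hYW _ (hyY q hq))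
    have h2 : C.card * Y.card ≤ P.card := by
      rw [← Finset.card_product]
      refine Finset.card_le_card_of_injOn (fun p => a + xf (rep p.1) + p.2) ?_ ?_
      · intro p hp
        rw [Finset.mem_coe, Finset.mem_product] at hp
        exact hmem _ (hQP _ (hrepQ _ hp.1)) _ hp.2
      · intro p hp p' hp' heq
        rw [Finset.mem_coe, Finset.mem_product] at hp hp'
        have e1 := hmk _ (hQP _ (hrepQ _ hp.1)) _ hp.2
        have e2 := hmk _ (hQP _ (hrepQ _ hp'.1)) _ hp'.2
        simp only at heq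
        rw [heq] at e1
        have e3 : p.1 = p'.1 := by
          rw [← hrepc _ hp.1, ← hrepc _ hp'.1, ← e1, ← e2]
        rw [e3] at heq
        exact Prod.ext e3 (add_left_cancel heq)
    have hYne : Y.Nonempty := ⟨yf q₀, hyY q₀ hq₀P⟩
    have hYpos : (0 : ℝ) < Y.card := by exact_mod_cast hYne.card_pos
    obtain ⟨y₀, hy₀, hy₀card⟩ := Finset.exists_le_card_fiber_of_nsmul_le_card_of_maps_to
      (s := Q) (t := Y) (f := yf) (b := ((Q.card : ℕ) : ℝ) / Y.card)
      (fun q hq => hyY q (hQP q hq)) hYne (by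
        rw [nsmul_eq_mul, mul_div_cancel₀ _ hYpos.ne'])
    have hsub : Q.filter (fun q => yf q = y₀) ⊆ A ∩ progF (a + y₀) v N S := by
      intro q hq
      rw [Finset.mem_filter] at hq
      rw [Finset.mem_inter]
      refine ⟨(Finset.mem_inter.1 hq.1).1, ?_⟩
      rw [mem_progF]
      refine ⟨kf q, (hkf q (hQP q hq.1)).1, ?_⟩
      conv_lhs => rw [hdec q (hQP q hq.1)]
      rw [hq.2]
      rw [hxf]
      abel
    refine ⟨a + y₀, ?_, ?_⟩
    · intro x hx
      rw [mem_progF] at hx
      obtain ⟨k, hk, rfl⟩ := hx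
      rw [hY, mem_progF] at hy₀
      obtain ⟨k', hk', rfl⟩ := hy₀
      rw [hP, mem_progF]
      refine ⟨fun i => if i ∈ S then k i else k' i, fun i => ?_, ?_⟩
      · show (if i ∈ S then k i else k' i) < N i
        split_ifs
        · exact hk i
        · exact hk' i
      · rw [zero_add, ← Finset.sum_add_sum_compl S]
        have e1 : ∑ i ∈ S, (if i ∈ S then k i else k' i) • v i = ∑ i ∈ S, k i • v i :=
          Finset.sum_congr rfl fun i hi => by rw [if_pos hi]
        have e2 : ∑ i ∈ Sᶜ, (if i ∈ S then k i else k' i) • v i = ∑ i ∈ Sᶜ, k' i • v i :=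
          Finset.sum_congr rfl fun i hi => by
            rw [Finset.mem_compl] at hi
            rw [if_neg hi]
        rw [e1, e2]
        abel
    · have h3 : ((Q.card : ℕ) : ℝ) ≤ Y.card * ((A ∩ progF (a + y₀) v N S).card : ℝ) := by
        have e1 : (((Q.filter (fun q => yf q = y₀)).card : ℕ) : ℝ) ≤
            ((A ∩ progF (a + y₀) v N S).card : ℝ) := by
          exact_mod_cast Finset.card_le_card hsub
        have e2 := hy₀card.trans e1
        rw [div_le_iff₀ hYpos] at e2
        linarith
      have h1' : ((Q.card : ℕ) : ℝ) ≤ κ * C.card := by exact_mod_cast h1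
      have h2' : (C.card : ℝ) * Y.card ≤ P.card := by exact_mod_cast h2
      calc ((Q.card : ℕ) : ℝ) ^ 2 = (Q.card : ℝ) * Q.card := by ring
        _ ≤ (κ * C.card) * (Y.card * ((A ∩ progF (a + y₀) v N S).card : ℝ)) :=
            mul_le_mul h1' h3 (Nat.cast_nonneg _)
              (mul_nonneg (Nat.cast_nonneg _) (Nat.cast_nonneg _))
        _ = κ * ((C.card : ℝ) * Y.card) * ((A ∩ progF (a + y₀) v N S).card : ℝ) := by ring
        _ ≤ κ * (P.card : ℝ) * ((A ∩ progF (a + y₀) v N S).card : ℝ) := by
            refine mul_le_mul_of_nonneg_right ?_ (Nat.cast_nonneg _)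
            exact mul_le_mul_of_nonneg_left h2' (Nat.cast_nonneg _)

end Prog

end R851RR
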