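import Mathlib

set_option autoImplicit false

namespace R851RR

open Finset

section Energy

variable {V : Type*} [AddCommGroup V]

/-- reflection of a formal sum -/
noncomputable def refl (V : Type*) [AddCommGroup V] :
    AddMonoidAlgebra ℝ V →+* AddMonoidAlgebra ℝ V :=
  AddMonoidAlgebra.mapDomainRingHom ℝ (negAddMonoidHom : V →+ V)

lemma refl_single (x : V) (r : ℝ) :
    refl V (AddMonoidAlgebra.single x r) = AddMonoidAlgebra.single (-x) r := by
  simp [refl]

lemma refl_coeff (g : AddMonoidAlgebra ℝ V) (x : V) : (refl V g).coeff x = g.coeff (-x) := by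
  have h := Finsupp.mapDomain_apply (f := fun y : V => -y) neg_injective g.coeff (-x)
  simp only [neg_neg] at h
  exact h

/-- coefficient at zero -/
noncomputable def tau (g : AddMonoidAlgebra ℝ V) : ℝ := g.coeff 0

lemma tau_mul_refl (g h : AddMonoidAlgebra ℝ V) (S : Finset V) (hS : g.coeff.support ⊆ S) :
    tau (g * refl V h) = ∑ x ∈ S, g.coeff x * h.coeff x := by
  unfold tau
  rw [AddMonoidAlgebra.coeff_mul_apply_left, Finsupp.sum]
  rw [← Finset.sum_subset hS]
  · refine Finset.sum_congr rfl fun x _ => ?_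
    rw [refl_coeff]
    simp
  · intro x _ hx
    rw [Finsupp.notMem_support_iff] at hx
    rw [hx, zero_mul]

lemma tau_cs (g h : AddMonoidAlgebra ℝ V) :
    tau (g * refl V h) ^ 2 ≤ tau (g * refl V g) * tau (h * refl V h) := by
  classical
  have h1 := tau_mul_refl g h (g.coeff.support ∪ h.coeff.support) Finset.subset_union_left
  have h2 := tau_mul_refl g g (g.coeff.support ∪ h.coeff.support) Finset.subset_union_left
  have h3 := tau_mul_refl h h (g.coeff.support ∪ h.coeff.support) Finset.subset_union_right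
  rw [h1, h2, h3]
  have := Finset.sum_mul_sq_le_sq_mul_sq (g.coeff.support ∪ h.coeff.support)
    (fun x => g.coeff x) (fun x => h.coeff x)
  simpa [sq] using this

/-- nonnegative coefficients -/
def Nn (g : AddMonoidAlgebra ℝ V) : Prop := ∀ x, 0 ≤ g.coeff x

lemma Nn.mul {g h : AddMonoidAlgebra ℝ V} (hg : Nn g) (hh : Nn h) : Nn (g * h) := by
  intro x
  rw [AddMonoidAlgebra.coeff_mul_apply_left]
  exact Finset.sum_nonneg fun y _ => mul_nonneg (hg y) (hh _)

lemma Nn.one : Nn (1 : AddMonoidAlgebra ℝ V) := by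
  classical
  intro x
  rw [AddMonoidAlgebra.one_def, AddMonoidAlgebra.coeff_single, Finsupp.single_apply]
  split_ifs <;> norm_num

lemma Nn.pow {g : AddMonoidAlgebra ℝ V} (hg : Nn g) (n : ℕ) : Nn (g ^ n) := by
  induction n with
  | zero => simpa using Nn.one
  | succ n ih => rw [pow_succ]; exact ih.mul hg

lemma prod_pairs {M : Type*} [CommMonoid M] (F : ℕ → M) (n : ℕ) :
    ∏ t ∈ range (2 * n), F t = ∏ t ∈ range n, (F (2 * t) * F (2 * t + 1)) := by
  induction n with
  | zero => simp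
  | succ n ih =>
    rw [Finset.prod_range_succ, ← ih, show 2 * (n + 1) = 2 * n + 1 + 1 by ring,
      Finset.prod_range_succ, Finset.prod_range_succ, mul_assoc]

lemma tau_holder (s : ℕ) : ∀ (F : ℕ → AddMonoidAlgebra ℝ V), (∀ t, refl V (F t) = F t) →
    (∀ t, Nn (F t)) →
    tau (∏ t ∈ range (2 ^ s), F t) ^ (2 ^ s) ≤ ∏ t ∈ range (2 ^ s), tau (F t ^ (2 ^ s)) := by
  induction s with
  | zero => intro F _ _; simp
  | succ s ih =>
    intro F hF hN
    have h2 : 2 ^ (s + 1) = 2 * 2 ^ s := by ring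
    rw [h2, prod_pairs, prod_pairs]
    set m := 2 ^ s with hm
    have hG := ih (fun t => F (2 * t) * F (2 * t + 1))
      (fun t => by rw [map_mul, hF, hF]) (fun t => (hN _).mul (hN _))
    have hPn : Nn (∏ t ∈ range m, (F (2 * t) * F (2 * t + 1))) := by
      refine Finset.prod_induction _ Nn (fun a b => Nn.mul) Nn.one fun t _ => (hN _).mul (hN _)
    have hnn : 0 ≤ tau (∏ t ∈ range m, (F (2 * t) * F (2 * t + 1))) ^ m :=
      pow_nonneg (hPn 0) _
    calc tau (∏ t ∈ range m, (F (2 * t) * F (2 * t + 1))) ^ (2 * m)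
        = (tau (∏ t ∈ range m, (F (2 * t) * F (2 * t + 1))) ^ m) ^ 2 := by
          rw [← pow_mul, mul_comm]
      _ ≤ (∏ t ∈ range m, tau ((F (2 * t) * F (2 * t + 1)) ^ m)) ^ 2 :=
          pow_le_pow_left₀ hnn hG 2
      _ = ∏ t ∈ range m, (tau ((F (2 * t) * F (2 * t + 1)) ^ m)) ^ 2 := by
          rw [Finset.prod_pow]
      _ ≤ ∏ t ∈ range m, (tau (F (2 * t) ^ (2 * m)) * tau (F (2 * t + 1) ^ (2 * m))) := by
          refine Finset.prod_le_prod (fun t _ => sq_nonneg _) fun t _ => ?_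
          have hr1 : refl V (F (2 * t) ^ m) = F (2 * t) ^ m := by rw [map_pow, hF]
          have hr2 : refl V (F (2 * t + 1) ^ m) = F (2 * t + 1) ^ m := by rw [map_pow, hF]
          have := tau_cs (F (2 * t) ^ m) (F (2 * t + 1) ^ m)
          rw [hr1, hr2, ← mul_pow, ← pow_add, ← pow_add] at this
          rw [← two_mul m] at this
          exact this

/-- the kernel of a vector -/
noncomputable def ker (v : V) : AddMonoidAlgebra ℝ V :=
  (1 + AddMonoidAlgebra.single v 1) * (1 + AddMonoidAlgebra.single (-v) 1)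

lemma one_add_Nn (v : V) : Nn (1 + AddMonoidAlgebra.single v 1 : AddMonoidAlgebra ℝ V) := by
  classical
  intro x
  rw [AddMonoidAlgebra.coeff_add, Finsupp.add_apply]
  refine add_nonneg (Nn.one x) ?_
  rw [AddMonoidAlgebra.coeff_single, Finsupp.single_apply]
  split_ifs <;> norm_num

lemma ker_Nn (v : V) : Nn (ker v) := (one_add_Nn v).mul (one_add_Nn (-v))

lemma refl_ker (v : V) : refl V (ker v) = ker v := by
  unfold ker
  rw [map_mul, map_add, map_add, map_one, refl_single, refl_single, neg_neg, mul_comm]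

lemma single_pow' (x : V) (k : ℕ) :
    (AddMonoidAlgebra.single x (1 : ℝ)) ^ k = AddMonoidAlgebra.single (k • x) (1 : ℝ) := by
  rw [AddMonoidAlgebra.single_pow, one_pow]

lemma ker_pow (v : V) (m : ℕ) : ker v ^ m =
    ∑ k ∈ range (2 * m + 1), AddMonoidAlgebra.single (((k : ℤ) - (m : ℤ)) • v)
      (((2 * m).choose k : ℕ) : ℝ) := by
  have h1 : (1 + AddMonoidAlgebra.single (-v) 1 : AddMonoidAlgebra ℝ V)
      = AddMonoidAlgebra.single (-v) 1 * (1 + AddMonoidAlgebra.single v 1) := by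
    rw [mul_add, mul_one, AddMonoidAlgebra.single_mul_single, neg_add_cancel, one_mul,
      AddMonoidAlgebra.one_def, add_comm]
  have h2 : ker v = AddMonoidAlgebra.single (-v) 1 * (1 + AddMonoidAlgebra.single v 1) ^ 2 := by
    unfold ker
    rw [h1]; ring
  rw [h2, mul_pow, ← pow_mul, single_pow', add_comm (1 : AddMonoidAlgebra ℝ V), add_pow,
    Finset.mul_sum]
  refine Finset.sum_congr rfl fun k _ => ?_
  rw [one_pow, mul_one, single_pow', ← mul_assoc, AddMonoidAlgebra.single_mul_single, one_mul]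
  have h3 : ((((2 * m).choose k : ℕ)) : AddMonoidAlgebra ℝ V)
      = AddMonoidAlgebra.single 0 (((2 * m).choose k : ℕ) : ℝ) := by
    rw [AddMonoidAlgebra.natCast_def]
  rw [h3, AddMonoidAlgebra.single_mul_single, add_zero, one_mul]
  congr 1
  rw [sub_smul, natCast_zsmul, natCast_zsmul, smul_neg]
  abel

lemma tau_sum {κ : Type*} (s : Finset κ) (f : κ → AddMonoidAlgebra ℝ V) :
    tau (∑ i ∈ s, f i) = ∑ i ∈ s, tau (f i) := by
  unfold tau
  rw [AddMonoidAlgebra.coeff_sum]
  simp

lemma tau_indep {κ : Type*} [Fintype κ] [DecidableEq κ] (u : κ → V)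
    (hu : ∀ c : κ → ℤ, ∑ i, c i • u i = 0 → ∀ i, c i = 0) (m : ℕ) :
    tau ((∏ i, ker (u i)) ^ m) = (((Nat.centralBinom m : ℕ) : ℝ)) ^ (Fintype.card κ) := by
  classical
  rw [← Finset.prod_pow]
  simp_rw [ker_pow]
  rw [Finset.prod_univ_sum]
  have h1 : ∀ p : κ → ℕ, ∏ i, AddMonoidAlgebra.single (((p i : ℤ) - (m : ℤ)) • u i)
      (((2 * m).choose (p i) : ℕ) : ℝ) =
      AddMonoidAlgebra.single (∑ i, ((p i : ℤ) - (m : ℤ)) • u i)
        (∏ i, (((2 * m).choose (p i) : ℕ) : ℝ)) := by
    intro p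
    rw [AddMonoidAlgebra.prod_single]
  simp_rw [h1]
  rw [tau_sum]
  rw [Finset.sum_eq_single (fun _ => m)]
  · unfold tau
    simp [Nat.centralBinom]
  · intro p _ hp
    unfold tau
    rw [AddMonoidAlgebra.coeff_single, Finsupp.single_apply, if_neg]
    intro h0
    apply hp
    funext i
    have := hu (fun i => (p i : ℤ) - (m : ℤ)) h0 i
    omega
  · intro h
    exfalso
    apply h
    rw [Fintype.mem_piFinset]
    intro i
    rw [Finset.mem_range]; omega

/-- the sums over subsets of a family -/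
noncomputable def cube {ι : Type*} (v : ι → V) (S : Finset ι) : Finset V :=
  haveI := Classical.decEq V
  S.powerset.image fun T => ∑ i ∈ T, v i

lemma prod_one_add_single {ι : Type*} (v : ι → V) (S : Finset ι) :
    ∏ i ∈ S, (1 + AddMonoidAlgebra.single (v i) (1 : ℝ)) =
      ∑ T ∈ S.powerset, AddMonoidAlgebra.single (∑ i ∈ T, v i) (1 : ℝ) := by
  rw [Finset.prod_one_add]
  refine Finset.sum_congr rfl fun T _ => ?_
  rw [AddMonoidAlgebra.prod_single, Finset.prod_const_one]

lemma card_cube {ι : Type*} (v : ι → V) (S : Finset ι) :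
    ((2 : ℝ) ^ S.card) ^ 2 ≤ ((cube v S).card : ℝ) * tau (∏ i ∈ S, ker (v i)) := by
  classical
  set R : AddMonoidAlgebra ℝ V := ∏ i ∈ S, (1 + AddMonoidAlgebra.single (v i) (1 : ℝ)) with hR
  have hk : ∏ i ∈ S, ker (v i) = R * refl V R := by
    rw [hR, map_prod, ← Finset.prod_mul_distrib]
    refine Finset.prod_congr rfl fun i _ => ?_
    rw [map_add, map_one, refl_single]
    rfl
  have hco : ∀ x, R.coeff x = (((S.powerset.filter fun T => ∑ i ∈ T, v i = x).card : ℕ) : ℝ) := by
    intro x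
    rw [hR, prod_one_add_single, AddMonoidAlgebra.coeff_sum, Finsupp.finsetSum_apply]
    simp only [AddMonoidAlgebra.coeff_single, Finsupp.single_apply]
    rw [Finset.sum_boole]
  have hsupp : R.coeff.support ⊆ cube v S := by
    intro x hx
    rw [Finsupp.mem_support_iff, hco] at hx
    have : (S.powerset.filter fun T => ∑ i ∈ T, v i = x).Nonempty := by
      rw [← Finset.card_pos, Nat.pos_iff_ne_zero]
      exact_mod_cast hx
    obtain ⟨T, hT⟩ := this
    rw [Finset.mem_filter] at hT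
    unfold cube
    convert Finset.mem_image_of_mem (fun T => ∑ i ∈ T, v i) hT.1
    exact hT.2.symm
  have hmass : ∑ x ∈ cube v S, R.coeff x = (2 : ℝ) ^ S.card := by
    simp_rw [hco]
    rw [← Nat.cast_sum]
    have : ∑ x ∈ cube v S, (S.powerset.filter fun T => ∑ i ∈ T, v i = x).card
        = S.powerset.card := by
      refine (Finset.card_eq_sum_card_fiberwise (f := fun T => ∑ i ∈ T, v i)
        (t := cube v S) ?_).symm
      intro T hT
      unfold cube
      have h0 := Finset.mem_image_of_mem (fun T => ∑ i ∈ T, v i) (Finset.mem_coe.1 hT)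
      rw [Finset.mem_coe]
      convert h0
    rw [this, Finset.card_powerset]
    norm_num
  rw [hk, tau_mul_refl R R _ hsupp, ← hmass]
  have := sq_sum_le_card_mul_sum_sq (s := cube v S) (f := fun x => R.coeff x)
  simpa [sq] using this

lemma centralBinom_sq (m : ℕ) : (Nat.centralBinom m) ^ 2 * (2 * m + 1) ≤ 16 ^ m := by
  induction m with
  | zero => simp
  | succ m ih =>
    have h := Nat.succ_mul_centralBinom_succ m
    have h2 : (m + 1) ^ 2 * ((Nat.centralBinom (m + 1)) ^ 2 * (2 * (m + 1) + 1)) ≤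
        (m + 1) ^ 2 * 16 ^ (m + 1) := by
      calc (m + 1) ^ 2 * ((Nat.centralBinom (m + 1)) ^ 2 * (2 * (m + 1) + 1))
          = ((m + 1) * Nat.centralBinom (m + 1)) ^ 2 * (2 * (m + 1) + 1) := by ring
        _ = (2 * (2 * m + 1) * Nat.centralBinom m) ^ 2 * (2 * (m + 1) + 1) := by rw [h]
        _ = (Nat.centralBinom m ^ 2 * (2 * m + 1)) * (4 * ((2 * m + 1) * (2 * m + 3))) := by ring
        _ ≤ 16 ^ m * (4 * ((2 * m + 1) * (2 * m + 3))) := Nat.mul_le_mul_right _ ih
        _ ≤ 16 ^ m * (16 * (m + 1) ^ 2) := by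
            refine Nat.mul_le_mul_left _ ?_
            nlinarith
        _ = (m + 1) ^ 2 * 16 ^ (m + 1) := by ring
    exact Nat.le_of_mul_le_mul_left h2 (by positivity)

/-- `2 ^ s` disjoint independent families of size `w` span a cube of size at least
`(2 ^ (s + 1) + 1) ^ (w / 2)`. -/
lemma card_cube_ge {ι : Type*} (v : ι → V) (s w : ℕ) (B : ℕ → Finset ι) (S : Finset ι)
    (hBS : ∀ t < 2 ^ s, B t ⊆ S)
    (hdis : ∀ t < 2 ^ s, ∀ t' < 2 ^ s, t ≠ t' → Disjoint (B t) (B t'))
    (hcard : ∀ t < 2 ^ s, (B t).card = w)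
    (hind : ∀ t < 2 ^ s, ∀ c : (B t) → ℤ, ∑ i, c i • v i = 0 → ∀ i, c i = 0) :
    (2 * 2 ^ s + 1 : ℝ) ^ w ≤ ((cube v S).card : ℝ) ^ 2 := by
  classical
  set m := 2 ^ s with hm
  set U : Finset ι := (range m).biUnion B with hU
  have hUS : U ⊆ S := by
    intro i hi
    rw [hU, Finset.mem_biUnion] at hi
    obtain ⟨t, ht, hi⟩ := hi
    exact hBS t (Finset.mem_range.1 ht) hi
  have hpd : Set.PairwiseDisjoint (↑(range m)) B := by
    intro t ht t' ht' hne
    exact hdis t (by simpa using ht) t' (by simpa using ht') hne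
  have hUcard : U.card = m * w := by
    rw [hU, Finset.card_biUnion (fun t ht t' ht' hne => hpd ht ht' hne)]
    rw [Finset.sum_congr rfl (fun t ht => hcard t (Finset.mem_range.1 ht))]
    simp
  have hmono : (cube v U).card ≤ (cube v S).card := by
    refine Finset.card_le_card ?_
    unfold cube
    exact Finset.image_subset_image (Finset.powerset_mono.2 hUS)
  have hprod : ∏ i ∈ U, ker (v i) = ∏ t ∈ range m, ∏ i ∈ B t, ker (v i) := by
    rw [hU, Finset.prod_biUnion hpd]
  -- replace the index set by all naturals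
  have htau : tau (∏ t ∈ range m, ∏ i ∈ B t, ker (v i)) ^ m ≤
      ((((Nat.centralBinom m : ℕ) : ℝ)) ^ w) ^ m := by
    have h := tau_holder s (fun t => ∏ i ∈ B t, ker (v i))
      (fun t => by rw [map_prod]; exact Finset.prod_congr rfl fun i _ => refl_ker _)
      (fun t => Finset.prod_induction _ Nn (fun a b => Nn.mul) Nn.one fun i _ => ker_Nn _)
    refine h.trans (le_of_eq ?_)
    rw [← hm]
    have : ∀ t ∈ range m, tau ((∏ i ∈ B t, ker (v i)) ^ m) =
        (((Nat.centralBinom m : ℕ) : ℝ)) ^ w := by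
      intro t ht
      rw [Finset.mem_range] at ht
      rw [← Finset.prod_coe_sort (B t) (fun i => ker (v i))]
      rw [tau_indep (fun i : (B t) => v i) (hind t ht) m]
      rw [Fintype.card_coe, hcard t ht]
    rw [Finset.prod_congr rfl this, Finset.prod_const, Finset.card_range]
  have hm0 : m ≠ 0 := by rw [hm]; positivity
  have htau2 : tau (∏ i ∈ U, ker (v i)) ≤ (((Nat.centralBinom m : ℕ) : ℝ)) ^ w := by
    rw [hprod]
    exact le_of_pow_le_pow_left₀ hm0 (by positivity) htau
  have hc := card_cube v U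
  rw [hUcard] at hc
  have hcb : 0 < Nat.centralBinom m := Nat.centralBinom_pos m
  have h1 : ((2 : ℝ) ^ (m * w)) ^ 2 ≤ ((cube v S).card : ℝ) *
      (((Nat.centralBinom m : ℕ) : ℝ)) ^ w := by
    refine hc.trans ?_
    have : ((cube v U).card : ℝ) ≤ ((cube v S).card : ℝ) := by exact_mod_cast hmono
    calc ((cube v U).card : ℝ) * tau (∏ i ∈ U, ker (v i))
        ≤ ((cube v U).card : ℝ) * (((Nat.centralBinom m : ℕ) : ℝ)) ^ w :=
          mul_le_mul_of_nonneg_left htau2 (by positivity)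
      _ ≤ _ := mul_le_mul_of_nonneg_right this (by positivity)
  have h2 := pow_le_pow_left₀ (by positivity) h1 2
  have h3 : ((((Nat.centralBinom m : ℕ) : ℝ)) ^ 2 * (2 * m + 1)) ^ w ≤ ((16 : ℝ) ^ m) ^ w := by
    refine pow_le_pow_left₀ (by positivity) ?_ w
    exact_mod_cast centralBinom_sq m
  have h4 : (((2 : ℝ) ^ (m * w)) ^ 2) ^ 2 = ((16 : ℝ) ^ m) ^ w := by
    rw [← pow_mul, ← pow_mul, ← pow_mul, show m * w * (2 * 2) = 4 * (m * w) by ring, pow_mul]
    norm_num
  rw [h4] at h2
  have h5 : (((Nat.centralBinom m : ℕ) : ℝ) ^ w) ^ 2 * (2 * m + 1 : ℝ) ^ w ≤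
      (((Nat.centralBinom m : ℕ) : ℝ) ^ w) ^ 2 * ((cube v S).card : ℝ) ^ 2 := by
    calc (((Nat.centralBinom m : ℕ) : ℝ) ^ w) ^ 2 * (2 * m + 1 : ℝ) ^ w
        = ((((Nat.centralBinom m : ℕ) : ℝ)) ^ 2 * (2 * m + 1)) ^ w := by
          rw [mul_pow, ← pow_mul, ← pow_mul, mul_comm w 2]
      _ ≤ ((16 : ℝ) ^ m) ^ w := h3
      _ ≤ _ := h2
      _ = _ := by ring
  have h6 : (0 : ℝ) < (((Nat.centralBinom m : ℕ) : ℝ) ^ w) ^ 2 := by positivity
  have h7 := le_of_mul_le_mul_left h5 h6
  rw [hm] at h7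
  push_cast at h7
  exact h7

end Energy

end R851RR
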