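import Mathlib

set_option autoImplicit false

namespace R851RR

open MeasureTheory Metric Set Module
open scoped ENNReal

section

variable {E : Type*} [NormedAddCommGroup E] [NormedSpace ℝ E] [FiniteDimensional ℝ E]

theorem pack (s : Finset E) (r : ℝ) (hr : 0 ≤ r) (hs : ∀ c ∈ s, ‖c‖ ≤ r)
    (h : ∀ c ∈ s, ∀ d ∈ s, c ≠ d → 1 ≤ ‖c - d‖) :
    (s.card : ℝ) ≤ (2 * r + 1) ^ finrank ℝ E := by
  borelize E
  let μ : Measure E := Measure.addHaar
  let δ : ℝ := (1 : ℝ) / 2
  let ρ : ℝ := r + (1 : ℝ) / 2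
  have ρpos : 0 < ρ := by positivity
  set A := ⋃ c ∈ s, ball (c : E) δ with hA
  have D : Set.Pairwise (s : Set E) (Function.onFun Disjoint fun c => ball (c : E) δ) := by
    rintro c hc d hd hcd
    apply ball_disjoint_ball
    rw [dist_eq_norm]
    convert! h c hc d hd hcd
    norm_num [δ]
  have A_subset : A ⊆ ball (0 : E) ρ := by
    refine iUnion₂_subset fun x hx => ?_
    apply ball_subset_ball'
    calc
      δ + dist x 0 ≤ δ + r := by rw [dist_zero_right]; exact add_le_add le_rfl (hs x hx)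
      _ = ρ := by simp only [δ, ρ]; ring
  have I :
    (s.card : ℝ≥0∞) * ENNReal.ofReal (δ ^ finrank ℝ E) * μ (ball 0 1) ≤
      ENNReal.ofReal (ρ ^ finrank ℝ E) * μ (ball 0 1) :=
    calc
      (s.card : ℝ≥0∞) * ENNReal.ofReal (δ ^ finrank ℝ E) * μ (ball 0 1) = μ A := by
        rw [hA, measure_biUnion_finset D fun c _ => measurableSet_ball]
        have I : 0 < δ := by norm_num [δ]
        simp only [μ.addHaar_ball_of_pos _ I]
        simp only [Finset.sum_const, nsmul_eq_mul, mul_assoc]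
      _ ≤ μ (ball (0 : E) ρ) := measure_mono A_subset
      _ = ENNReal.ofReal (ρ ^ finrank ℝ E) * μ (ball 0 1) := by
        simp only [μ.addHaar_ball_of_pos _ ρpos]
  have J : (s.card : ℝ≥0∞) * ENNReal.ofReal (δ ^ finrank ℝ E) ≤
      ENNReal.ofReal (ρ ^ finrank ℝ E) :=
    (ENNReal.mul_le_mul_iff_left (measure_ball_pos _ _ zero_lt_one).ne' measure_ball_lt_top.ne).1 I
  have K : (s.card : ℝ) * δ ^ finrank ℝ E ≤ ρ ^ finrank ℝ E := by
    have := ENNReal.toReal_le_of_le_ofReal (pow_nonneg ρpos.le _) J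
    rw [ENNReal.toReal_mul, ENNReal.toReal_natCast,
      ENNReal.toReal_ofReal (by positivity)] at this
    exact this
  have hδ : (0 : ℝ) < δ ^ finrank ℝ E := by positivity
  have h2 : ρ ^ finrank ℝ E = (2 * r + 1) ^ finrank ℝ E * δ ^ finrank ℝ E := by
    rw [← mul_pow]
    congr 1
    simp only [δ, ρ]
    ring
  rw [h2] at K
  exact le_of_mul_le_mul_right K hδ

end

/-- Points of a 1-separated subset of a ball of radius `ρ` in a translate of a finite-dimensional
`ℚ`-subspace. -/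
theorem slice_bound {n : ℕ} (ρ : ℝ) (hρ : 0 ≤ ρ) (c : EuclideanSpace ℝ (Fin n))
    (D : Finset (EuclideanSpace ℝ (Fin n)))
    (hball : ∀ y ∈ D, dist y c ≤ ρ) (hsep : ∀ y ∈ D, ∀ z ∈ D, y ≠ z → 1 ≤ dist y z)
    (W : Submodule ℚ (EuclideanSpace ℝ (Fin n))) [Module.Finite ℚ W]
    (x : EuclideanSpace ℝ (Fin n)) (hD : ∀ y ∈ D, y - x ∈ W) :
    (D.card : ℝ) ≤ (4 * ρ + 1) ^ (finrank ℚ W) := by
  classical
  rcases D.eq_empty_or_nonempty with rfl | ⟨y₀, hy₀⟩
  · simp; positivity
  set b := Module.finBasis ℚ W with hb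
  set U : Submodule ℝ (EuclideanSpace ℝ (Fin n)) :=
    Submodule.span ℝ (Set.range fun i => ((b i : W) : EuclideanSpace ℝ (Fin n))) with hU
  have hWU : ∀ w ∈ W, w ∈ U := by
    intro w hw
    have h1 := b.sum_repr ⟨w, hw⟩
    have h2 : w = ∑ i, b.repr ⟨w, hw⟩ i • ((b i : W) : EuclideanSpace ℝ (Fin n)) := by
      calc w = ((⟨w, hw⟩ : W) : EuclideanSpace ℝ (Fin n)) := rfl
        _ = ((∑ i, b.repr ⟨w, hw⟩ i • b i : W) : EuclideanSpace ℝ (Fin n)) := by rw [h1]
        _ = _ := by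
          rw [Submodule.coe_sum]
          rfl
    rw [h2]
    refine Submodule.sum_mem _ fun i _ => ?_
    have h3 : b.repr ⟨w, hw⟩ i • ((b i : W) : EuclideanSpace ℝ (Fin n)) =
        ((b.repr ⟨w, hw⟩ i : ℚ) : ℝ) • ((b i : W) : EuclideanSpace ℝ (Fin n)) := by
      ext j
      simp [Rat.smul_def]
    rw [h3]
    exact U.smul_mem _ (Submodule.subset_span ⟨i, rfl⟩)
  have hfin : finrank ℝ U ≤ finrank ℚ W := by
    have := finrank_range_le_card (R := ℝ)
      (fun i => ((b i : W) : EuclideanSpace ℝ (Fin n)))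
    simpa [Set.finrank] using this
  have hmem : ∀ y ∈ D, y - y₀ ∈ U := by
    intro y hy
    have : y - y₀ = (y - x) - (y₀ - x) := by abel
    rw [this]
    exact hWU _ (W.sub_mem (hD y hy) (hD y₀ hy₀))
  set f : EuclideanSpace ℝ (Fin n) → U := fun y => if h : y - y₀ ∈ U then ⟨y - y₀, h⟩ else 0
    with hf
  have hfval : ∀ y ∈ D, ((f y : U) : EuclideanSpace ℝ (Fin n)) = y - y₀ := by
    intro y hy
    rw [hf]
    simp only
    rw [dif_pos (hmem y hy)]
  have hinj : Set.InjOn f D := by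
    intro y hy z hz hyz
    have := congrArg (Subtype.val) hyz
    rw [hfval y hy, hfval z hz] at this
    exact sub_left_injective this
  have hcard : (D.image f).card = D.card := Finset.card_image_of_injOn hinj
  have hpack := pack (D.image f) (2 * ρ) (by positivity) (by
    intro c' hc'
    rw [Finset.mem_image] at hc'
    obtain ⟨y, hy, rfl⟩ := hc'
    have h1 : ‖f y‖ = ‖y - y₀‖ := by
      rw [← hfval y hy]; rfl
    rw [h1, ← dist_eq_norm]
    have := dist_triangle_right y y₀ c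
    linarith [hball y hy, hball y₀ hy₀]) (by
    intro c' hc' d' hd' hne
    rw [Finset.mem_image] at hc' hd'
    obtain ⟨y, hy, rfl⟩ := hc'
    obtain ⟨z, hz, rfl⟩ := hd'
    have hyz : y ≠ z := fun h => hne (by rw [h])
    have h1 : ‖f y - f z‖ = ‖y - z‖ := by
      have : ((f y - f z : U) : EuclideanSpace ℝ (Fin n)) = y - z := by
        rw [Submodule.coe_sub, hfval y hy, hfval z hz]
        abel
      rw [← this]; rfl
    rw [h1, ← dist_eq_norm]
    exact hsep y hy z hz hyz)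
  rw [hcard] at hpack
  refine hpack.trans ?_
  have h4 : (2 * (2 * ρ) + 1 : ℝ) = 4 * ρ + 1 := by ring
  rw [h4]
  exact pow_le_pow_right₀ (by linarith) hfin

end R851RR
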